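import Pool.Agent.H45.HMS.POR

/-!
# HMS, module HPT: the programs of box 5 are polynomial time
-/

set_option autoImplicit false

namespace Pool.HMS

open TMLib Finset

attribute [local fun_prop] P45.add P45.mul P45.neg P45.sub P45.le P45.lt P45.castNat P45.den
  P45.pow P45.sum P45.prod P45.fn' P45.ent' P45.tab' P45.sumTo' P45.natEq P45.optMap'

variable {α : Type} [Enc α]

lemma ptime_clr45 [Fact QOps] [Fact QSums] {v : α → Vec} (hv : PTime v) :
    PTime (fun x => clr (v x)) := by
  unfold clr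
  fun_prop

attribute [local fun_prop] ptime_clr45

lemma ptime_sepB45 [Fact QOps] [Fact QSums] {n : α → ℕ} {B : α → ℚ} (hn : PTime n)
    (hB : PTime B) : PTime (fun x => sepB (n x) (B x)) := by
  unfold sepB
  fun_prop

lemma ptime_hullRows45 [Fact QOps] [Fact QSums] {n : α → ℕ} {B : α → ℚ} {p : α → Vec}
    (hn : PTime n) (hB : PTime B) (hp : PTime p) :
    PTime (fun x => hullRows (n x) (B x) (p x)) := by
  unfold hullRows
  fun_prop

lemma ptime_cutRow45 [Fact QOps] [Fact QSums] {n : α → ℕ} {w : α → Vec}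
    (hn : PTime n) (hw : PTime w) : PTime (fun x => cutRow (n x) (w x)) := by
  unfold cutRow
  fun_prop

lemma ptime_homRow45 [Fact QOps] [Fact QSums] {n : α → ℕ} {w : α → Vec}
    (hn : PTime n) (hw : PTime w) : PTime (fun x => homRow (n x) (w x)) := by
  unfold homRow
  fun_prop

lemma ptime_polyO45' [Fact QOps] [Fact QSums] {r : α → Mat} {q : α → Vec}
    (hr : PTime r) (hq : PTime q) : PTime (fun x => polyO (r x) (q x)) :=
  PTime.comp2 (g := polyO) ptime_polyO45 hr hq

attribute [local fun_prop] ptime_sepB45 ptime_hullRows45 ptime_cutRow45 ptime_homRow45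
  ptime_polyO45'

theorem hpt_thm (h1 : S_QOP) (h2 : S_QSUM) : S_HPT := by
  have : Fact QOps := ⟨h1⟩
  have : Fact QSums := ⟨h2⟩
  refine ⟨fun ip hip => ?_, fun ex hex => ?_⟩
  · have h3 : PTime (fun p : HData × Vec =>
        polyO (hullRows p.1.1.1 (sepB p.1.1.1 p.1.1.2.2) p.1.2.1) p.2) := by fun_prop
    have h4 : PTime (fun p : HData × Vec =>
        (ip (p.1.1.1, p.1.1.2.1 ++ [cutRow p.1.1.1 p.2], p.1.1.2.2, p.1.2.2)).map
          (homRow p.1.1.1)) := by
      refine PTime.optMap (g := fun (p : HData × Vec) x => homRow p.1.1.1 x) ?_ (by fun_prop)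
      exact PTime.comp (g := ip) hip (by fun_prop)
    refine (PTime.optCases (g := fun _ r => some r) h3 h4 (by fun_prop)).congr fun p => ?_
    unfold hullO
    cases polyO (hullRows p.1.1.1 (sepB p.1.1.1 p.1.1.2.2) p.1.2.1) p.2 <;> rfl
  · unfold hullA
    refine PTime.head? (PTime.comp (g := ex) hex ?_)
    fun_prop

end Pool.HMS
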