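import Pool.Agent.H48.HMS.Stm
import Pool.Agent.H76.HMS.HullDefs

/-!
# HMS: arithmetic on rationals as polynomial time functions, from `QOps` and `QSums`

All lemmas take `[Fact QOps]`, `[Fact QSums]`; they are meant to be used with
`attribute [local fun_prop]`.
-/

set_option autoImplicit false

namespace Pool.HMS.P45

open TMLib Finset

variable {α β γ : Type} [Enc α] [Enc β] [Enc γ]

lemma add [h : Fact QOps] {f g : α → ℚ} (hf : PTime f) (hg : PTime g) :
    PTime (fun x => f x + g x) := PTime.comp2 (g := fun a b : ℚ => a + b) h.out.add hf hg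

lemma mul [h : Fact QOps] {f g : α → ℚ} (hf : PTime f) (hg : PTime g) :
    PTime (fun x => f x * g x) := PTime.comp2 (g := fun a b : ℚ => a * b) h.out.mul hf hg

lemma neg [h : Fact QOps] {f : α → ℚ} (hf : PTime f) : PTime (fun x => - f x) :=
  PTime.comp (g := fun a : ℚ => -a) h.out.neg hf

lemma sub [Fact QOps] {f g : α → ℚ} (hf : PTime f) (hg : PTime g) :
    PTime (fun x => f x - g x) := (add hf (neg hg)).congr fun x => sub_eq_add_neg _ _

lemma inv [h : Fact QOps] {f : α → ℚ} (hf : PTime f) : PTime (fun x => (f x)⁻¹) :=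
  PTime.comp (g := fun a : ℚ => a⁻¹) h.out.inv hf

lemma div [Fact QOps] {f g : α → ℚ} (hf : PTime f) (hg : PTime g) :
    PTime (fun x => f x / g x) := (mul hf (inv hg)).congr fun x => div_eq_mul_inv _ _

lemma le [h : Fact QOps] {f g : α → ℚ} (hf : PTime f) (hg : PTime g) :
    PTime (fun x => decide (f x ≤ g x)) :=
  PTime.comp2 (g := fun a b : ℚ => decide (a ≤ b)) h.out.le hf hg

lemma lt [Fact QOps] {f g : α → ℚ} (hf : PTime f) (hg : PTime g) :
    PTime (fun x => decide (f x < g x)) :=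
  (PTime.not (le hg hf)).congr fun x => by
    rw [Bool.eq_iff_iff]; simp

lemma castInt [h : Fact QOps] {f : α → ℤ} (hf : PTime f) : PTime (fun x => ((f x : ℤ) : ℚ)) :=
  PTime.comp (g := fun a : ℤ => (a : ℚ)) h.out.cast hf

lemma castNat [Fact QOps] {f : α → ℕ} (hf : PTime f) : PTime (fun x => ((f x : ℕ) : ℚ)) :=
  (castInt (ptime_ofNat hf)).congr fun x => by simp

lemma den [Fact QOps] {f : α → ℚ} (hf : PTime f) : PTime (fun x => (((f x).den : ℕ) : ℚ)) :=
  (castInt (ptime_qden hf)).congr fun x => by simp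

lemma pow [h : Fact QSums] {f : α → ℚ} {n : α → ℕ} (hf : PTime f) (hn : PTime n) :
    PTime (fun x => f x ^ n x) := PTime.comp2 (g := fun (a : ℚ) (n : ℕ) => a ^ n) h.out.pow hf hn

lemma sum [h : Fact QSums] {f : α → List ℚ} (hf : PTime f) : PTime (fun x => (f x).sum) :=
  PTime.comp (g := fun l : List ℚ => l.sum) h.out.sum hf

lemma prod [h : Fact QSums] {f : α → List ℚ} (hf : PTime f) : PTime (fun x => (f x).prod) :=
  PTime.comp (g := fun l : List ℚ => l.prod) h.out.prod hf

lemma fn' {v : α → Vec} {i : α → ℕ} (hv : PTime v) (hi : PTime i) :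
    PTime (fun x => fn (v x) (i x)) := PTime.listGetD hv hi (PTime.const 0)

lemma ent' {v : α → Mat} {i j : α → ℕ} (hv : PTime v) (hi : PTime i) (hj : PTime j) :
    PTime (fun x => ent (v x) (i x) (j x)) := fn' (PTime.listGetD hv hi (PTime.const [])) hj

lemma tab' {n : α → ℕ} {f : α → ℕ → ℚ} (hn : PTime n) (hf : PTime fun p : α × ℕ => f p.1 p.2) :
    PTime (fun x => tab (n x) (f x)) := PTime.map (PTime.range hn) hf

lemma sumTo' [Fact QSums] {n : α → ℕ} {f : α → ℕ → ℚ} (hn : PTime n)
    (hf : PTime fun p : α × ℕ => f p.1 p.2) : PTime (fun x => sumTo (n x) (f x)) :=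
  sum (PTime.map (PTime.range hn) hf)

lemma natEq {f g : α → ℕ} (hf : PTime f) (hg : PTime g) : PTime (fun x => decide (f x = g x)) :=
  PTime.natEq hf hg

lemma optMap' {o : α → Option β} {g : α → β → γ} (ho : PTime o)
    (hg : PTime fun p : α × β => g p.1 p.2) : PTime (fun x => (o x).map (g x)) :=
  PTime.optMap ho hg

end Pool.HMS.P45
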