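import Pool.Agent.H45.HMS.PLib

/-!
# HMS, module POR: `polyO` is a separation oracle for `Poly`, in polynomial time
-/

set_option autoImplicit false

namespace Pool.HMS

open TMLib Finset

attribute [local fun_prop] P45.add P45.mul P45.neg P45.sub P45.le P45.lt P45.castNat P45.den
  P45.pow P45.sum P45.prod P45.fn' P45.ent' P45.tab' P45.sumTo' P45.natEq P45.optMap'

theorem sumTo_eq45 (n : ℕ) (f : ℕ → ℚ) : sumTo n f = ∑ i ∈ range n, f i := by
  unfold sumTo
  induction n with
  | zero => simp
  | succ n ih => rw [List.range_succ, List.map_append, List.sum_append, ih, Finset.sum_range_succ]; simp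

theorem affP_eq45 (s q : Vec) : affP s q = aff q.length (fn s) (fn q) := by
  unfold affP aff
  rw [sumTo_eq45]

theorem polyO_oracle45 (n : ℕ) (rows : Mat) : IsOracle n (Poly n rows) (polyO rows) := by
  intro q hq
  refine ⟨fun h => ?_, fun s h => ?_⟩
  · unfold polyO at h
    rw [List.head?_eq_none_iff, List.filter_eq_nil_iff] at h
    refine ⟨fun i hi => ?_, fun r hr => ?_⟩
    · unfold fn
      rw [List.getD_eq_getElem?_getD, List.getElem?_eq_none (by omega)]
      rfl
    · have h1 := h r hr
      rw [affP_eq45, hq] at h1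
      simpa using h1
  · unfold polyO at h
    have h1 := List.mem_of_mem_head? (Option.mem_def.2 h)
    rw [List.mem_filter] at h1
    obtain ⟨hs, h2⟩ := h1
    rw [affP_eq45, hq] at h2
    refine ⟨fun x hx => hx.2 s hs, by simpa using h2⟩

theorem poly_convex45 (n : ℕ) (rows : Mat) : Convex ℚ (Poly n rows) := by
  intro x hx y hy a b ha hb hab
  refine ⟨fun i hi => ?_, fun r hr => ?_⟩
  · simp [hx.1 i hi, hy.1 i hi]
  · have h1 := hx.2 r hr
    have h2 := hy.2 r hr
    have h3 : aff n (fn r) (a • x + b • y) = a * aff n (fn r) x + b * aff n (fn r) y := by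
      unfold aff
      have : fn r 0 = a * fn r 0 + b * fn r 0 := by rw [← add_mul, hab, one_mul]
      simp only [Pi.add_apply, Pi.smul_apply, smul_eq_mul, mul_add, Finset.sum_add_distrib,
        Finset.mul_sum]
      have e1 : ∀ i, fn r (i + 1) * (a * x i) = a * (fn r (i + 1) * x i) := fun i => by ring
      have e2 : ∀ i, fn r (i + 1) * (b * y i) = b * (fn r (i + 1) * y i) := fun i => by ring
      simp only [e1, e2]
      linarith
    rw [h3]
    positivity

theorem ptime_polyO45 [Fact QOps] [Fact QSums] :
    PTime (fun p : Mat × Vec => polyO p.1 p.2) := by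
  unfold polyO affP
  fun_prop

theorem por_thm (h1 : S_QOP) (h2 : S_QSUM) : S_POR := by
  haveI : Fact QOps := ⟨h1⟩
  haveI : Fact QSums := ⟨h2⟩
  exact ⟨polyO_oracle45, poly_convex45, ptime_polyO45, affP_eq45⟩

end Pool.HMS
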