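import Pool.Agent.H76.HMS.SvStmts

/-!
# HMS, module VIC: solutions of states are solutions of the problem
-/

set_option autoImplicit false

namespace Pool.HMS

open TMLib Finset

theorem vic_thm (h1 : S_VPR) (h2 : S_VCB) : S_VIC := by
  intro d rows y S hS hsol
  obtain ⟨v, hv, t, ht, hy⟩ := hsol
  obtain ⟨h0, hadd, -⟩ := h2.2.1 (HA d rows)
  rw [hy]
  refine hadd v ?_ t ?_
  · obtain ⟨k, a, -, ha, hva⟩ := hv
    exact ⟨k, a, ha, hva⟩
  · clear hy hv
    have key : ∀ (L : List ENode), (∀ p ∈ L, ∀ i j, IsI (ent p.2.1 i j)) → ∀ t ∈ RepP d rows L,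
        t ∈ IC (HA d rows) := by
      intro L
      induction L with
      | nil =>
        intro _ t ht
        have : t = 0 := by simpa [RepP] using ht
        rw [this]; exact h0
      | cons x ps ih =>
        intro hL t ht
        obtain ⟨u, hu, t', ht', rfl⟩ := ht
        exact hadd _ (h1.2.2.2.1 d rows x (hL x (by simp)) u hu) _
          (ih (fun p hp => hL p (by simp [hp])) t' ht')
    exact key S.2 hS t ht

end Pool.HMS
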