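import Pool.Agent.H76.HMS.SvStmts

/-!
# HMS, module VNB: a net point bounds the pieces of a solution
-/

set_option autoImplicit false

namespace Pool.HMS

open TMLib Finset

theorem vnb_thm (h1 : S_VCB) : S_VNB := by
  intro d rows y S zs z _ _ hzt l hl
  obtain ⟨hc, -⟩ := h1
  obtain ⟨-, -, hsc, -⟩ := hc (HP d rows (nodeAt S l))
  have h := hzt.2.2.1 l hl
  have hD : (0 : ℚ) < 2 * RD (dimS d S) * ((dimS d S : ℕ) + 1) := by unfold RD; positivity
  have h2 := hsc _ h (2 * RD (dimS d S) * ((dimS d S : ℕ) + 1)) hD.le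
  convert h2 using 1
  funext i
  simp only [pcl, blk, Pi.smul_apply, Pi.sub_apply, smul_eq_mul]
  split_ifs
  · have hR : RD (dimS d S) ≠ 0 := by unfold RD; positivity
    have h3 : 2 * RD (dimS d S) * ((dimS d S : ℕ) + 1) * tauD (dimS d S) = 1 := by
      unfold tauD
      field_simp
    have h4 : ((1 + 2 * (8 * dimS d S ^ 3 + 1) * (dimS d S + 1) : ℕ) : ℚ) =
        1 + 2 * RD (dimS d S) * ((dimS d S : ℕ) + 1) := by
      unfold RD; push_cast; ring
    rw [h4]
    linear_combination (-(zs (offs d S l + i) - z (offs d S l + i))) * h3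
  · simp

end Pool.HMS
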